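import Pool.Agent.Helper85.Girth4.Sum

/-!
# The transfer-matrix bound
-/

namespace Pool.Agent.Helper85.Girth4

open Pool.Agent.Helper41.Girth4 Finset

variable {P : Par}

open Classical in
/-- The weight of a state. -/
noncomputable def Gf (GN G0 : ℕ → ℕ → ℝ) (G1 : ℕ → ℝ) (p : ℕ × Bool) (lp : ZMod P.M)
    (s : ℕ × Bool) (l : ZMod P.M) : ℝ :=
  if s.2 = true then (if satL p lp s l then G1 s.1 else G0 s.1 p.1) else GN s.1 p.1

theorem avg_const (c : ℝ) : (∑ _l : ZMod P.M, c) / Fintype.card (ZMod P.M) = c := by
  rw [Finset.sum_const, nsmul_eq_mul, Finset.card_univ, mul_div_cancel_left₀]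
  exact_mod_cast Fintype.card_ne_zero

section

variable {μ : ℝ} {GN G0 : ℕ → ℕ → ℝ} {G1 : ℕ → ℝ}

theorem Gf_false (p : ℕ × Bool) (lp : ZMod P.M) (T : ℕ) (l : ZMod P.M) :
    Gf GN G0 G1 p lp (T, false) l = GN T p.1 := by
  unfold Gf
  simp

theorem Gf_true_sat {p : ℕ × Bool} {lp : ZMod P.M} {T : ℕ} {l : ZMod P.M}
    (h : satL p lp (T, true) l) : Gf GN G0 G1 p lp (T, true) l = G1 T := by
  unfold Gf
  simp [h]

theorem Gf_true_unsat {p : ℕ × Bool} {lp : ZMod P.M} {T : ℕ} {l : ZMod P.M}
    (h : ¬ satL p lp (T, true) l) : Gf GN G0 G1 p lp (T, true) l = G0 T p.1 := by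
  unfold Gf
  simp [h]

theorem Gf_pos (cert : Cert P μ GN G0 G1) (p : ℕ × Bool) (lp : ZMod P.M) (s : ℕ × Bool)
    (l : ZMod P.M) : 0 < Gf GN G0 G1 p lp s l := by
  unfold Gf
  split_ifs
  · exact cert.pos1 _
  · exact cert.pos0 _ _
  · exact cert.posN _ _

open Classical in
theorem Q_le {p : ℕ × Bool} {lp : ZMod P.M} {s : ℕ × Bool} {l : ZMod P.M}
    {w : List (Fin 3)} {D : ℕ} {x : ℕ × Bool} {B : ℝ}
    (h : ∀ l' : ZMod P.M, F s l x l' w D ≤ B * Gf GN G0 G1 s l x l')
    {L : ZMod P.M → ℝ}
    (hL : ∀ l' : ZMod P.M, Pr (fun z : Cl P × (Fin 2 → Om P (D + 1)) =>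
      Loc p.1 s x.1 (satL p lp s l ∨ (x.2 = true ∧ x.1 = s.1 ∧ ¬ beats l l')) (z.1, l)
        (fun k => ext (D + 1) (z.2 k))) = L l') :
    Q p lp s l w D x ≤ (∑ l' : ZMod P.M, L l' * (B * Gf GN G0 G1 s l x l')) /
      Fintype.card (ZMod P.M) := by
  unfold Q
  apply div_le_div_of_nonneg_right _ (Nat.cast_nonneg _)
  apply Finset.sum_le_sum
  intro l' _
  rw [hL l']
  apply mul_le_mul_of_nonneg_left (h l')
  rw [← hL l']
  exact Pr_nonneg _

theorem F_bound (hC : StmtVertex P) (hD : StmtLaw P) (hμ : 0 < μ)
    (cert : Cert P μ GN G0 G1) {C : ℝ} (hC0 : 0 ≤ C)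
    (hC1 : ∀ (p : ℕ × Bool) (lp : ZMod P.M) (s : ℕ × Bool) (l : ZMod P.M), OK P p → OK P s →
      1 ≤ C * Gf GN G0 G1 p lp s l) :
    ∀ (w : List (Fin 3)) (D : ℕ), w.length + (3 * P.K + 2) ≤ D →
    ∀ (p : ℕ × Bool) (lp : ZMod P.M) (s : ℕ × Bool) (l : ZMod P.M), OK P p → OK P s →
      F p lp s l w D ≤ C * μ ^ w.length * Gf GN G0 G1 p lp s l := by
  intro w
  induction w with
  | nil =>
    intro D _ p lp s l hp hs
    refine (Pr_le_one _).trans ?_
    simpa using hC1 p lp s l hp hs
  | cons c w ih =>
    intro D hwD p lp s l hp hs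
    obtain ⟨D, rfl⟩ : ∃ D', D = D' + 1 := ⟨D - 1, by simp at hwD; omega⟩
    have hwD' : w.length + (3 * P.K + 2) ≤ D := by
      simp only [List.length_cons] at hwD
      omega
    have ih' := ih D hwD'
    refine (F_step p lp s l c w D).trans ?_
    set B : ℝ := C * μ ^ w.length with hB
    have hB0 : 0 ≤ B := mul_nonneg hC0 (pow_nonneg hμ.le _)
    have hgoal : C * μ ^ (c :: w).length * Gf GN G0 G1 p lp s l =
        B * (μ * Gf GN G0 G1 p lp s l) := by
      rw [hB, List.length_cons, pow_succ]
      ring
    rw [hgoal]
    have hKD : 3 * P.K + 2 ≤ D + 1 := by omega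
    obtain ⟨T, b⟩ := s
    cases b with
    | false =>
      have hT : T ≤ P.K := hs.1
      rw [Gf_false]
      refine le_trans ?_ (mul_le_mul_of_nonneg_left (cert.iN T hT p.1 hp.1) hB0)
      rw [Finset.mul_sum]
      apply Finset.sum_le_sum
      intro e he
      have he' : e ≤ P.K := Nat.lt_succ_iff.mp (Finset.mem_range.mp he)
      have hq1 : Q p lp (T, false) l w D (e, false) ≤ B * (wN P p.1 e T * GN e T) := by
        refine (Q_le (GN := GN) (G0 := G0) (G1 := G1)
          (fun l' => ih' (T, false) l (e, false) l' hs ⟨he', by simp⟩)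
          (L := fun _ => wN P p.1 e T)
          (fun l' => loc_false hC hD hT hKD p.1 e _ l)).trans (le_of_eq ?_)
        simp only [Gf_false]
        rw [avg_const]
        ring
      have hq2 : e < P.K → Q p lp (T, false) l w D (e, true) ≤ B * (wN P p.1 e T * G0 e T) := by
        intro heK
        refine (Q_le (GN := GN) (G0 := G0) (G1 := G1)
          (fun l' => ih' (T, false) l (e, true) l' hs ⟨he', fun _ => heK⟩)
          (L := fun _ => wN P p.1 e T)
          (fun l' => loc_false hC hD hT hKD p.1 e _ l)).trans (le_of_eq ?_)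
        have : ∀ l' : ZMod P.M, Gf GN G0 G1 (T, false) l (e, true) l' = G0 e T := by
          intro l'
          apply Gf_true_unsat
          rintro ⟨h, -⟩
          simp at h
        simp only [this]
        rw [avg_const]
        ring
      split_ifs with heK
      · have := hq2 heK
        nlinarith [hq1, this]
      · rw [add_zero, add_zero]
        exact hq1
    | true =>
      have hT : T < P.K := hs.2 rfl
      by_cases hsat : satL p lp (T, true) l
      · -- satisfied by the predecessor
        rw [Gf_true_sat hsat]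
        have hpT : p.1 = T := hsat.2.1
        have hcert := mul_le_mul_of_nonneg_left (cert.i1 T hT) hB0
        refine le_trans ?_ hcert
        have hloc : ∀ (e : ℕ) (b : Bool) (l' : ZMod P.M),
            Pr (fun z : Cl P × (Fin 2 → Om P (D + 1)) =>
              Loc p.1 (T, true) (e, b).1 (satL p lp (T, true) l ∨
                ((e, b).2 = true ∧ (e, b).1 = (T, true).1 ∧ ¬ beats l l')) (z.1, l)
              (fun k => ext (D + 1) (z.2 k))) = wA P T e T := by
          intro e b l'
          rw [hpT]
          exact loc_true_sat hC hD hT hKD T e _ (Or.inl hsat) l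
        have hterm : ∀ e ∈ Finset.range (P.K + 1),
            (Q p lp (T, true) l w D (e, false) +
              if e < P.K then Q p lp (T, true) l w D (e, true) else 0) ≤
            B * (wA P T e T * (GN e T + if e < P.K ∧ e ≠ T then G0 e T else 0)) +
              (if e = T then B * (bet P * wA P T T T * G1 T + bet P * wA P T T T * G0 T T +
                1 / P.M * wA P T T T * G1 T) else 0) := by
          intro e he
          have he' : e ≤ P.K := Nat.lt_succ_iff.mp (Finset.mem_range.mp he)
          have hq1 : Q p lp (T, true) l w D (e, false) ≤ B * (wA P T e T * GN e T) := by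
            refine (Q_le (GN := GN) (G0 := G0) (G1 := G1)
              (fun l' => ih' (T, true) l (e, false) l' hs ⟨he', by simp⟩)
              (L := fun _ => wA P T e T)
              (fun l' => hloc e false l')).trans (le_of_eq ?_)
            simp only [Gf_false]
            rw [avg_const]
            ring
          by_cases heT : e = T
          · subst heT
            rw [if_pos hT, if_pos rfl, if_neg (by simp)]
            have hq2 : Q p lp (e, true) l w D (e, true) ≤
                B * (bet P * wA P e e e * G1 e + bet P * wA P e e e * G0 e e +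
                1 / P.M * wA P e e e * G1 e) := by
              classical
              refine (Q_le (GN := GN) (G0 := G0) (G1 := G1)
                (fun l' => ih' (e, true) l (e, true) l' hs ⟨he', fun _ => hT⟩)
                (L := fun _ => wA P e e e)
                (fun l' => hloc e true l')).trans (le_of_eq ?_)
              have hb := sum_beats (P := P) l (wA P e e e * (B * G1 e))
                (wA P e e e * (B * G0 e e)) (wA P e e e * (B * G1 e))
              have : ∀ l' : ZMod P.M, wA P e e e *
                  (B * Gf GN G0 G1 (e, true) l (e, true) l') =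
                  (if beats l l' then wA P e e e * (B * G1 e) else
                    if beats l' l then wA P e e e * (B * G0 e e) else
                      wA P e e e * (B * G1 e)) := by
                intro l'
                by_cases h1 : beats l l'
                · rw [if_pos h1, Gf_true_sat ⟨rfl, rfl, beats_asymm h1⟩]
                · rw [if_neg h1]
                  by_cases h2 : beats l' l
                  · rw [if_pos h2, Gf_true_unsat]
                    rintro ⟨-, -, h3⟩
                    exact h3 h2
                  · rw [if_neg h2, Gf_true_sat ⟨rfl, rfl, h2⟩]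
              rw [Finset.sum_congr rfl (fun l' _ => this l'), hb]
              ring
            nlinarith [hq1, hq2]
          · rw [if_neg heT, add_zero]
            have hq2 : e < P.K → Q p lp (T, true) l w D (e, true) ≤
                B * (wA P T e T * G0 e T) := by
              intro heK
              refine (Q_le (GN := GN) (G0 := G0) (G1 := G1)
                (fun l' => ih' (T, true) l (e, true) l' hs ⟨he', fun _ => heK⟩)
                (L := fun _ => wA P T e T)
                (fun l' => hloc e true l')).trans (le_of_eq ?_)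
              have : ∀ l' : ZMod P.M, Gf GN G0 G1 (T, true) l (e, true) l' = G0 e T := by
                intro l'
                apply Gf_true_unsat
                rintro ⟨-, h, -⟩
                exact heT h.symm
              simp only [this]
              rw [avg_const]
              ring
            by_cases heK : e < P.K
            · rw [if_pos heK, if_pos ⟨heK, heT⟩]
              have := hq2 heK
              nlinarith [hq1, this]
            · rw [if_neg heK, if_neg (fun h => heK h.1), add_zero, add_zero]
              exact hq1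
        refine (Finset.sum_le_sum hterm).trans (le_of_eq ?_)
        rw [Finset.sum_add_distrib, Finset.sum_ite_eq' , if_pos
          (Finset.mem_range.mpr (Nat.lt_succ_of_lt hT)), ← Finset.mul_sum]
        ring
      · -- not satisfied by the predecessor
        rw [Gf_true_unsat hsat]
        have hcert := mul_le_mul_of_nonneg_left (cert.i0 T hT p.1 hp.1) hB0
        refine le_trans ?_ hcert
        have hloc : ∀ (e : ℕ) (b : Bool) (l' : ZMod P.M), ¬ (b = true ∧ e = T ∧ ¬ beats l l') →
            Pr (fun z : Cl P × (Fin 2 → Om P (D + 1)) =>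
              Loc p.1 (T, true) (e, b).1 (satL p lp (T, true) l ∨
                ((e, b).2 = true ∧ (e, b).1 = (T, true).1 ∧ ¬ beats l l')) (z.1, l)
              (fun k => ext (D + 1) (z.2 k))) = wS P p.1 e T := by
          intro e b l' hn
          exact loc_true_unsat hC hD hT hKD p.1 e _
            (fun h => h.elim hsat hn) l
        have hloc' : ∀ (l' : ZMod P.M), ¬ beats l l' →
            Pr (fun z : Cl P × (Fin 2 → Om P (D + 1)) =>
              Loc p.1 (T, true) (T, true).1 (satL p lp (T, true) l ∨
                ((T, true).2 = true ∧ (T, true).1 = (T, true).1 ∧ ¬ beats l l')) (z.1, l)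
              (fun k => ext (D + 1) (z.2 k))) = wA P p.1 T T := by
          intro l' hn
          exact loc_true_sat hC hD hT hKD p.1 T _ (Or.inr ⟨rfl, rfl, hn⟩) l
        have hterm : ∀ e ∈ Finset.range (P.K + 1),
            (Q p lp (T, true) l w D (e, false) +
              if e < P.K then Q p lp (T, true) l w D (e, true) else 0) ≤
            B * (wS P p.1 e T * (GN e T + if e < P.K ∧ e ≠ T then G0 e T else 0)) +
              (if e = T then B * (bet P * wS P p.1 T T * G1 T + bet P * wA P p.1 T T * G0 T T +
                1 / P.M * wA P p.1 T T * G1 T) else 0) := by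
          intro e he
          have he' : e ≤ P.K := Nat.lt_succ_iff.mp (Finset.mem_range.mp he)
          have hq1 : Q p lp (T, true) l w D (e, false) ≤ B * (wS P p.1 e T * GN e T) := by
            refine (Q_le (GN := GN) (G0 := G0) (G1 := G1)
              (fun l' => ih' (T, true) l (e, false) l' hs ⟨he', by simp⟩)
              (L := fun _ => wS P p.1 e T)
              (fun l' => hloc e false l' (by simp))).trans (le_of_eq ?_)
            simp only [Gf_false]
            rw [avg_const]
            ring
          by_cases heT : e = T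
          · subst heT
            rw [if_pos hT, if_pos rfl, if_neg (by simp)]
            have hq2 : Q p lp (e, true) l w D (e, true) ≤
                B * (bet P * wS P p.1 e e * G1 e + bet P * wA P p.1 e e * G0 e e +
                1 / P.M * wA P p.1 e e * G1 e) := by
              classical
              refine (Q_le (GN := GN) (G0 := G0) (G1 := G1)
                (fun l' => ih' (e, true) l (e, true) l' hs ⟨he', fun _ => hT⟩)
                (L := fun l' => if beats l l' then wS P p.1 e e else wA P p.1 e e)
                (fun l' => ?_)).trans (le_of_eq ?_)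
              · by_cases h1 : beats l l'
                · rw [if_pos h1]
                  exact hloc e true l' (fun h => h.2.2 h1)
                · rw [if_neg h1]
                  exact hloc' l' h1
              · have hb := sum_beats (P := P) l (wS P p.1 e e * (B * G1 e))
                  (wA P p.1 e e * (B * G0 e e)) (wA P p.1 e e * (B * G1 e))
                have : ∀ l' : ZMod P.M, (if beats l l' then wS P p.1 e e else wA P p.1 e e) *
                    (B * Gf GN G0 G1 (e, true) l (e, true) l') =
                    (if beats l l' then wS P p.1 e e * (B * G1 e) else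
                      if beats l' l then wA P p.1 e e * (B * G0 e e) else
                        wA P p.1 e e * (B * G1 e)) := by
                  intro l'
                  by_cases h1 : beats l l'
                  · rw [if_pos h1, if_pos h1, Gf_true_sat ⟨rfl, rfl, beats_asymm h1⟩]
                  · rw [if_neg h1, if_neg h1]
                    by_cases h2 : beats l' l
                    · rw [if_pos h2, Gf_true_unsat]
                      rintro ⟨-, -, h3⟩
                      exact h3 h2
                    · rw [if_neg h2, Gf_true_sat ⟨rfl, rfl, h2⟩]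
                rw [Finset.sum_congr rfl (fun l' _ => this l')]
                convert hb using 1
                · ring
            nlinarith [hq1, hq2]
          · rw [if_neg heT, add_zero]
            have hq2 : e < P.K → Q p lp (T, true) l w D (e, true) ≤
                B * (wS P p.1 e T * G0 e T) := by
              intro heK
              refine (Q_le (GN := GN) (G0 := G0) (G1 := G1)
                (fun l' => ih' (T, true) l (e, true) l' hs ⟨he', fun _ => heK⟩)
                (L := fun _ => wS P p.1 e T)
                (fun l' => hloc e true l' (fun h => heT h.2.1))).trans (le_of_eq ?_)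
              have : ∀ l' : ZMod P.M, Gf GN G0 G1 (T, true) l (e, true) l' = G0 e T := by
                intro l'
                apply Gf_true_unsat
                rintro ⟨-, h, -⟩
                exact heT h.symm
              simp only [this]
              rw [avg_const]
              ring
            by_cases heK : e < P.K
            · rw [if_pos heK, if_pos ⟨heK, heT⟩]
              have := hq2 heK
              nlinarith [hq1, this]
            · rw [if_neg heK, if_neg (fun h => heK h.1), add_zero, add_zero]
              exact hq1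
        refine (Finset.sum_le_sum hterm).trans (le_of_eq ?_)
        rw [Finset.sum_add_distrib, Finset.sum_ite_eq' , if_pos
          (Finset.mem_range.mpr (Nat.lt_succ_of_lt hT)), ← Finset.mul_sum]
        ring

end

theorem pr_union_le {α : Type*} [Finite α] {A : ℕ × Bool → α → Prop} {b : ℝ} (hb : 0 ≤ b)
    (h : ∀ x, OK P x → Pr (A x) ≤ b) :
    Pr (fun z => ∃ x, OK P x ∧ A x z) ≤ (P.K + 1) * (2 * b) := by
  refine (pr_union_OK A).trans ?_
  have : ∀ e ∈ Finset.range (P.K + 1),
      (Pr (A (e, false)) + if e < P.K then Pr (A (e, true)) else 0) ≤ 2 * b := by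
    intro e he
    have he' : e ≤ P.K := Nat.lt_succ_iff.mp (Finset.mem_range.mp he)
    have h1 := h (e, false) ⟨he', by simp⟩
    split_ifs with heK
    · have h2 := h (e, true) ⟨he', fun _ => heK⟩
      linarith
    · linarith
  refine (Finset.sum_le_card_nsmul _ _ _ this).trans (le_of_eq ?_)
  rw [Finset.card_range, nsmul_eq_mul]
  push_cast
  ring

theorem pr_start {b : ℝ} {D : ℕ} {p s : ℕ × Bool} {w : List (Fin 3)} {c : Fin 3}
    (h : ∀ lp l : ZMod P.M, F p lp s l w D ≤ b) :
    Pr (fun X : Om P (D + 2) => TB p (ext (D + 2) X []).2 s w (sub (ext (D + 2) X) c)) ≤ b := by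
  have h1 := Pr_equiv (omEquiv (P := P) (D + 1))
    (fun z : ZMod P.M × (Cl P × (Fin 3 → Om P (D + 1))) =>
      TB p z.1 s w (ext (D + 1) (z.2.2 c)))
  have h2 := Pr_avg' (fun (lp : ZMod P.M) (z : Cl P × (Fin 3 → Om P (D + 1))) =>
      TB p lp s w (ext (D + 1) (z.2 c)))
  have h3 : ∀ lp : ZMod P.M, Pr (fun z : Cl P × (Fin 3 → Om P (D + 1)) =>
      TB p lp s w (ext (D + 1) (z.2 c))) ≤ b := by
    intro lp
    have h4 := Pr_equiv (stepEquiv c D) (fun z : (Cl P × (Fin 2 → Om P (D + 1))) ×
        (ZMod P.M × (Cl P × (Fin 3 → Om P D))) =>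
      True ∧ TB p lp s w (mk z.2.2.1 z.2.1 z.2.2.2))
    have h5 := Pr_avg (fun (_ : ZMod P.M) (_ : Cl P × (Fin 2 → Om P (D + 1))) => True)
      (fun (l : ZMod P.M) (z : Cl P × (Fin 3 → Om P D)) => TB p lp s w (mk z.1 l z.2))
    have h6 : Pr (fun z : Cl P × (Fin 3 → Om P (D + 1)) =>
        TB p lp s w (ext (D + 1) (z.2 c))) =
        Pr (fun z : Cl P × (Fin 3 → Om P (D + 1)) =>
          True ∧ TB p lp s w (mk (stepEquiv c D z).2.2.1 (stepEquiv c D z).2.1
            (stepEquiv c D z).2.2.2)) := by
      apply Pr_congr
      intro z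
      rw [ext_eq_mk]
      simp only [true_and]
      exact Iff.rfl
    rw [h6]
    refine le_of_eq_of_le h4 ?_
    rw [h5]
    have h7 : (∑ l : ZMod P.M, Pr (fun _ : Cl P × (Fin 2 → Om P (D + 1)) => True) *
        Pr (fun z : Cl P × (Fin 3 → Om P D) => TB p lp s w (mk z.1 l z.2))) ≤
        ∑ _l : ZMod P.M, b := by
      apply Finset.sum_le_sum
      intro l _
      rw [Pr_true, one_mul]
      exact h lp l
    calc _ ≤ (∑ _l : ZMod P.M, b) / Fintype.card (ZMod P.M) :=
          div_le_div_of_nonneg_right h7 (Nat.cast_nonneg _)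
      _ = b := avg_const b
  have h8 : Pr (fun X : Om P (D + 2) =>
      TB p (ext (D + 2) X []).2 s w (sub (ext (D + 2) X) c)) =
      (∑ lp : ZMod P.M, Pr (fun z : Cl P × (Fin 3 → Om P (D + 1)) =>
      TB p lp s w (ext (D + 1) (z.2 c)))) / Fintype.card (ZMod P.M) := by
    rw [← h2]
    exact h1
  rw [h8]
  calc _ ≤ (∑ _l : ZMod P.M, b) / Fintype.card (ZMod P.M) := by
        apply div_le_div_of_nonneg_right _ (Nat.cast_nonneg _)
        exact Finset.sum_le_sum (fun lp _ => h3 lp)
    _ = b := avg_const b

/-- Packet E. -/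
theorem stmtSum (P : Par) (hC : StmtVertex P) (hD : StmtLaw P) : StmtSum P := by
  intro μ GN G0 G1 hμ cert
  -- a constant with `1 ≤ C * G`
  set C : ℝ := ∑ T ∈ Finset.range (P.K + 1), (1 / G1 T +
    ∑ a ∈ Finset.range (P.K + 1), (1 / GN T a + 1 / G0 T a)) with hCdef
  set G : ℝ := ∑ T ∈ Finset.range (P.K + 1), (G1 T +
    ∑ a ∈ Finset.range (P.K + 1), (GN T a + G0 T a)) with hGdef
  have i1 : ∀ T, 0 < 1 / G1 T := fun T => one_div_pos.mpr (cert.pos1 T)
  have iN : ∀ T a, 0 < 1 / GN T a := fun T a => one_div_pos.mpr (cert.posN T a)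
  have i0 : ∀ T a, 0 < 1 / G0 T a := fun T a => one_div_pos.mpr (cert.pos0 T a)
  have gen : ∀ (f : ℕ → ℝ) (g h : ℕ → ℕ → ℝ), (∀ T, 0 < f T) → (∀ T a, 0 < g T a) →
      (∀ T a, 0 < h T a) → ∀ T ≤ P.K, ∀ a ≤ P.K,
      f T ≤ (∑ T ∈ Finset.range (P.K + 1), (f T + ∑ a ∈ Finset.range (P.K + 1),
        (g T a + h T a))) ∧
      g T a ≤ (∑ T ∈ Finset.range (P.K + 1), (f T + ∑ a ∈ Finset.range (P.K + 1),
        (g T a + h T a))) ∧
      h T a ≤ (∑ T ∈ Finset.range (P.K + 1), (f T + ∑ a ∈ Finset.range (P.K + 1),
        (g T a + h T a))) := by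
    intro f g h hf hg hh T hT a ha
    have h1 : (f T + ∑ a ∈ Finset.range (P.K + 1), (g T a + h T a)) ≤
        (∑ T ∈ Finset.range (P.K + 1), (f T + ∑ a ∈ Finset.range (P.K + 1),
        (g T a + h T a))) := by
      apply Finset.single_le_sum (f := fun T => (f T + ∑ a ∈ Finset.range (P.K + 1),
        (g T a + h T a)))
      · intro T _
        have : 0 ≤ ∑ a ∈ Finset.range (P.K + 1), (g T a + h T a) :=
          Finset.sum_nonneg (fun a _ => (add_pos (hg T a) (hh T a)).le)
        have := (hf T).le
        positivity
      · exact Finset.mem_range.mpr (Nat.lt_succ_of_le hT)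
    have h2 : g T a + h T a ≤ ∑ a ∈ Finset.range (P.K + 1), (g T a + h T a) := by
      apply Finset.single_le_sum (f := fun a => g T a + h T a)
      · intro a _
        exact (add_pos (hg T a) (hh T a)).le
      · exact Finset.mem_range.mpr (Nat.lt_succ_of_le ha)
    have h3 := hf T
    have h4 := hg T a
    have h5 := hh T a
    refine ⟨by linarith, by linarith, by linarith⟩
  have hC0 : 0 ≤ C := (i1 0).le.trans
    (gen (fun T => 1 / G1 T) (fun T a => 1 / GN T a) (fun T a => 1 / G0 T a) i1 iN i0
      0 (Nat.zero_le _) 0 (Nat.zero_le _)).1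
  have hG0 : 0 ≤ G := (cert.pos1 0).le.trans
    (gen G1 GN G0 cert.pos1 cert.posN cert.pos0 0 (Nat.zero_le _) 0 (Nat.zero_le _)).1
  have hC1 : ∀ (p : ℕ × Bool) (lp : ZMod P.M) (s : ℕ × Bool) (l : ZMod P.M), OK P p →
      OK P s → 1 ≤ C * Gf GN G0 G1 p lp s l := by
    intro p lp s l hp hs
    have hh := gen (fun T => 1 / G1 T) (fun T a => 1 / GN T a) (fun T a => 1 / G0 T a) i1 iN i0
      s.1 hs.1 p.1 hp.1
    unfold Gf
    split_ifs
    · have := cert.pos1 s.1
      rw [← div_le_iff₀ this]
      exact hh.1
    · have := cert.pos0 s.1 p.1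
      rw [← div_le_iff₀ this]
      exact hh.2.2
    · have := cert.posN s.1 p.1
      rw [← div_le_iff₀ this]
      exact hh.2.1
  have hG1 : ∀ (p : ℕ × Bool) (lp : ZMod P.M) (s : ℕ × Bool) (l : ZMod P.M), OK P p →
      OK P s → Gf GN G0 G1 p lp s l ≤ G := by
    intro p lp s l hp hs
    have hh := gen G1 GN G0 cert.pos1 cert.posN cert.pos0 s.1 hs.1 p.1 hp.1
    unfold Gf
    split_ifs
    · exact hh.1
    · exact hh.2.2
    · exact hh.2.1
  have hF := F_bound hC hD hμ cert hC0 hC1
  refine ⟨1 + (P.K + 1) * (2 * ((P.K + 1) * (2 * (C * G)))) / μ, ?_⟩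
  intro w D hwD
  have hCG : 0 ≤ C * G := mul_nonneg hC0 hG0
  cases w with
  | nil =>
    refine (Pr_le_one _).trans ?_
    simp only [List.length_nil, pow_zero, mul_one]
    have : 0 ≤ (P.K + 1) * (2 * ((P.K + 1) * (2 * (C * G)))) / μ := by positivity
    linarith
  | cons c w =>
    obtain ⟨D, rfl⟩ : ∃ D', D = D' + 2 := ⟨D - 2, by simp at hwD; omega⟩
    have hwD' : w.length + (3 * P.K + 2) ≤ D := by
      simp only [List.length_cons] at hwD
      omega
    have hb : ∀ p : ℕ × Bool, OK P p → ∀ s : ℕ × Bool, OK P s →
        Pr (fun X : Om P (D + 2) =>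
          TB p (ext (D + 2) X []).2 s w (sub (ext (D + 2) X) c)) ≤ C * G * μ ^ w.length := by
      intro p hp s hs
      apply pr_start
      intro lp l
      refine (hF w D hwD' p lp s l hp hs).trans ?_
      have := mul_le_mul_of_nonneg_left (hG1 p lp s l hp hs)
        (mul_nonneg hC0 (pow_nonneg hμ.le w.length))
      refine this.trans (le_of_eq ?_)
      ring
    have hb0 : 0 ≤ C * G * μ ^ w.length := by positivity
    have h1 : ∀ p : ℕ × Bool, OK P p → Pr (fun X : Om P (D + 2) => ∃ s, OK P s ∧
        TB p (ext (D + 2) X []).2 s w (sub (ext (D + 2) X) c)) ≤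
        (P.K + 1) * (2 * (C * G * μ ^ w.length)) := fun p hp => pr_union_le hb0 (hb p hp)
    have hb1 : 0 ≤ (P.K + 1) * (2 * (C * G * μ ^ w.length)) := by positivity
    have h2 := pr_union_le hb1 h1
    have h3 : Pr (fun X : Pos (D + 2) → Lab P => TB0 (c :: w) (ext (D + 2) X)) ≤
        Pr (fun X : Om P (D + 2) => ∃ p, OK P p ∧ ∃ s, OK P s ∧
        TB p (ext (D + 2) X []).2 s w (sub (ext (D + 2) X) c)) := by
      apply Pr_mono
      rintro X ⟨p, s, hp, hs, h⟩
      exact ⟨p, hp, s, hs, h⟩
    refine h3.trans (h2.trans ?_)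
    rw [List.length_cons, pow_succ]
    have h4 : (1 + (P.K + 1) * (2 * ((P.K + 1) * (2 * (C * G)))) / μ) * (μ ^ w.length * μ) =
        μ ^ w.length * μ + (P.K + 1) * (2 * ((P.K + 1) * (2 * (C * G * μ ^ w.length)))) := by
      field_simp
    rw [h4]
    have : 0 ≤ μ ^ w.length * μ := by positivity
    linarith

end Pool.Agent.Helper85.Girth4
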