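import Pool.Agent.Helper41.Girth4.Stmts

/-!
# Probability toolkit
-/

namespace Pool.Agent.Helper85.Girth4

open Pool.Agent.Helper41.Girth4 Finset

section prob

variable {α β γ : Type*}

open Classical in
theorem Pr_eq_sum [Fintype α] (A : α → Prop) :
    Pr A = (∑ x, if A x then (1 : ℝ) else 0) / Fintype.card α := by
  unfold Pr
  rw [Nat.card_eq_fintype_card, Nat.card_eq_fintype_card, Fintype.card_subtype, Finset.sum_boole]

theorem Pr_nonneg (A : α → Prop) : 0 ≤ Pr A := by unfold Pr; positivity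

theorem Pr_congr {A B : α → Prop} (h : ∀ x, A x ↔ B x) : Pr A = Pr B := by
  have : A = B := funext fun x => propext (h x)
  rw [this]

theorem Pr_mono [Finite α] {A B : α → Prop} (h : ∀ x, A x → B x) : Pr A ≤ Pr B := by
  unfold Pr
  have : Nat.card {x // A x} ≤ Nat.card {x // B x} :=
    Nat.card_le_card_of_injective (Subtype.map id h)
      (Subtype.map_injective h Function.injective_id)
  gcongr

theorem Pr_equiv (e : α ≃ β) (A : β → Prop) : Pr (fun x => A (e x)) = Pr A := by
  unfold Pr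
  rw [Nat.card_congr e, Nat.card_congr (e.subtypeEquiv (fun _ => Iff.rfl))]

theorem Pr_true [Finite α] [Nonempty α] : Pr (fun _ : α => True) = 1 := by
  unfold Pr
  rw [Nat.card_congr (Equiv.subtypeUnivEquiv (fun _ => trivial))]
  exact div_self (Nat.cast_ne_zero.mpr Nat.card_pos.ne')

theorem Pr_le_one [Finite α] [Nonempty α] (A : α → Prop) : Pr A ≤ 1 := by
  rw [← Pr_true (α := α)]
  exact Pr_mono (fun _ _ => trivial)

theorem Pr_split [Finite α] (A B : α → Prop) :
    Pr A = Pr (fun x => A x ∧ B x) + Pr (fun x => A x ∧ ¬ B x) := by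
  classical
  have := Fintype.ofFinite α
  rw [Pr_eq_sum, Pr_eq_sum, Pr_eq_sum, ← add_div, ← Finset.sum_add_distrib]
  congr 1
  apply Finset.sum_congr rfl
  intro x _
  by_cases hA : A x <;> by_cases hB : B x <;> simp [hA, hB]

theorem Pr_exists_le [Finite α] {ι : Type*} (s : Finset ι) (A : ι → α → Prop) :
    Pr (fun x => ∃ i ∈ s, A i x) ≤ ∑ i ∈ s, Pr (A i) := by
  classical
  have := Fintype.ofFinite α
  simp_rw [Pr_eq_sum]
  rw [← Finset.sum_div]
  gcongr
  rw [Finset.sum_comm]
  apply Finset.sum_le_sum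
  intro x _
  split_ifs with h
  · obtain ⟨i, hi, hx⟩ := h
    calc (1 : ℝ) = if A i x then (1 : ℝ) else 0 := by simp [hx]
      _ ≤ _ := Finset.single_le_sum (f := fun i => if A i x then (1 : ℝ) else 0)
          (fun j _ => by split_ifs <;> norm_num) hi
  · exact Finset.sum_nonneg (fun j _ => by split_ifs <;> norm_num)

theorem Pr_fiber [Finite α] (A : α → Prop) (f : α → ℕ) (m : ℕ) (hf : ∀ x, f x ≤ m) :
    Pr A = ∑ j ∈ Finset.range (m + 1), Pr (fun x => A x ∧ f x = j) := by
  classical
  have := Fintype.ofFinite α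
  simp_rw [Pr_eq_sum]
  rw [← Finset.sum_div, Finset.sum_comm]
  congr 1
  apply Finset.sum_congr rfl
  intro x _
  by_cases hA : A x
  · simp only [hA, true_and, if_true]
    rw [Finset.sum_ite_eq]
    have : f x ∈ Finset.range (m + 1) := Finset.mem_range.mpr (Nat.lt_succ_of_le (hf x))
    simp [this]
  · simp [hA]

theorem Pr_avg [Finite α] [Fintype β] [Finite γ]
    (φ : β → α → Prop) (ψ : β → γ → Prop) :
    Pr (fun z : α × (β × γ) => φ z.2.1 z.1 ∧ ψ z.2.1 z.2.2) =
      (∑ b, Pr (φ b) * Pr (ψ b)) / Fintype.card β := by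
  classical
  have := Fintype.ofFinite α
  have := Fintype.ofFinite γ
  simp_rw [Pr_eq_sum]
  rw [Fintype.sum_prod_type]
  simp_rw [Fintype.sum_prod_type]
  rw [Fintype.card_prod, Fintype.card_prod]
  have : ∀ b : β, ((∑ x : α, if φ b x then (1 : ℝ) else 0) / (Fintype.card α : ℝ)) *
      ((∑ x : γ, if ψ b x then (1 : ℝ) else 0) / (Fintype.card γ : ℝ)) =
      (∑ x : α, ∑ y : γ, if φ b x ∧ ψ b y then (1 : ℝ) else 0) /
        ((Fintype.card α : ℝ) * (Fintype.card γ : ℝ)) := by
    intro b
    rw [div_mul_div_comm, Finset.sum_mul_sum]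
    congr 1
    apply Finset.sum_congr rfl
    intro x _
    apply Finset.sum_congr rfl
    intro y _
    by_cases h1 : φ b x <;> by_cases h2 : ψ b y <;> simp [h1, h2]
  simp_rw [this]
  rw [← Finset.sum_div, div_div, Finset.sum_comm]
  push_cast
  congr 1
  · ac_rfl
  · ring

theorem Pr_avg' [Fintype β] [Finite γ] (ψ : β → γ → Prop) :
    Pr (fun z : β × γ => ψ z.1 z.2) = (∑ b, Pr (ψ b)) / Fintype.card β := by
  classical
  have := Fintype.ofFinite γ
  simp_rw [Pr_eq_sum]
  rw [Fintype.sum_prod_type, ← Finset.sum_div, div_div, Fintype.card_prod]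
  push_cast
  congr 1
  simp only [← Nat.card_eq_fintype_card]
  ring

end prob

end Pool.Agent.Helper85.Girth4
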