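import Pool.Agent.Helper85.Girth4.Vertex

/-!
# Exponential decay of the probability of the tree event
-/

namespace Pool.Agent.Helper85.Girth4

open Pool.Agent.Helper41.Girth4 Finset

variable {P : Par}

/-! ### The tournament -/

theorem beats_irrefl {M : ℕ} (a : ZMod M) : ¬ beats a a := by
  unfold beats
  simp

theorem val_add_val {M : ℕ} [NeZero M] {a b : ZMod M} (h : a ≠ b) :
    (a - b).val + (b - a).val = M := by
  have h1 : b - a = -(a - b) := by ring
  rw [h1, ZMod.neg_val, if_neg (sub_ne_zero.mpr h)]
  have := ZMod.val_lt (a - b)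
  omega

theorem beats_asymm {M : ℕ} [NeZero M] {a b : ZMod M} (h : beats a b) : ¬ beats b a := by
  intro h'
  have hne : a ≠ b := by
    rintro rfl
    exact beats_irrefl _ h
  have := val_add_val hne
  have h1 := h.2
  have h2 := h'.2
  omega

theorem beats_total {M : ℕ} [NeZero M] (hM : M % 2 = 1) {a b : ZMod M} (hne : a ≠ b)
    (h : ¬ beats a b) : beats b a := by
  have h1 := val_add_val hne
  have h2 : 0 < (a - b).val := by
    rw [Nat.pos_iff_ne_zero]
    intro h0
    exact hne (sub_eq_zero.mp ((ZMod.val_eq_zero _).mp h0))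
  have h3 : 0 < (b - a).val := by
    rw [Nat.pos_iff_ne_zero]
    intro h0
    exact hne (sub_eq_zero.mp ((ZMod.val_eq_zero _).mp h0)).symm
  refine ⟨h3, ?_⟩
  by_contra h4
  exact h ⟨h2, by omega⟩

open Classical in
theorem sum_beats (l : ZMod P.M) (x y z : ℝ) :
    (∑ l' : ZMod P.M, (if beats l l' then x else if beats l' l then y else z)) /
      Fintype.card (ZMod P.M) = bet P * x + bet P * y + 1 / P.M * z := by
  have hM := P.hM
  have hM0 : (P.M : ℝ) ≠ 0 := by
    have : P.M ≠ 0 := by
      intro h
      rw [h] at hM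
      simp at hM
    exact_mod_cast this
  have hcard : Fintype.card (ZMod P.M) = P.M := ZMod.card P.M
  -- the three counts
  have h1 : ∀ l' : ZMod P.M, (if beats l l' then x else if beats l' l then y else z) =
      (if beats l l' then x else 0) + (if beats l' l then y else 0) +
        (if l' = l then z else 0) := by
    intro l'
    by_cases ha : beats l l'
    · have hb := beats_asymm ha
      have hc : l' ≠ l := by
        rintro rfl
        exact beats_irrefl _ ha
      simp [ha, hb, hc]
    · by_cases hb : beats l' l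
      · have hc : l' ≠ l := by
          rintro rfl
          exact beats_irrefl _ hb
        simp [ha, hb, hc]
      · have hc : l' = l := by
          by_contra hne
          exact ha (beats_total hM hne hb)
        subst hc
        simp [ha]
  have h2 : ∑ l' : ZMod P.M, (if beats l l' then x else 0) =
      (Finset.univ.filter (fun l' : ZMod P.M => beats l l')).card * x := by
    rw [← Finset.sum_filter, Finset.sum_const, nsmul_eq_mul]
  have h3 : ∑ l' : ZMod P.M, (if beats l' l then y else 0) =
      (Finset.univ.filter (fun l' : ZMod P.M => beats l' l)).card * y := by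
    rw [← Finset.sum_filter, Finset.sum_const, nsmul_eq_mul]
  have h4 : (Finset.univ.filter (fun l' : ZMod P.M => beats l l')).card =
      (Finset.univ.filter (fun l' : ZMod P.M => beats l' l)).card := by
    apply Finset.card_bij' (fun a _ => l + l - a) (fun a _ => l + l - a)
    · intro a ha
      simp only [Finset.mem_filter, Finset.mem_univ, true_and] at ha ⊢
      unfold beats at ha ⊢
      have : l + l - a - l = l - a := by ring
      rwa [this]
    · intro a ha
      simp only [Finset.mem_filter, Finset.mem_univ, true_and] at ha ⊢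
      unfold beats at ha ⊢
      have : l - (l + l - a) = a - l := by ring
      rwa [this]
    · intro a _
      ring
    · intro a _
      ring
  have h5 : (Finset.univ.filter (fun l' : ZMod P.M => beats l l')).card +
      (Finset.univ.filter (fun l' : ZMod P.M => beats l' l)).card + 1 = P.M := by
    have e : ∑ l' : ZMod P.M, ((if beats l l' then 1 else 0) + (if beats l' l then 1 else 0) +
        (if l' = l then 1 else 0)) = P.M := by
      have : ∀ l' : ZMod P.M, ((if beats l l' then 1 else 0) + (if beats l' l then 1 else 0) +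
        (if l' = l then 1 else 0)) = 1 := by
        intro l'
        by_cases ha : beats l l'
        · have hb := beats_asymm ha
          have hc : l' ≠ l := by
            rintro rfl
            exact beats_irrefl _ ha
          simp [ha, hb, hc]
        · by_cases hb : beats l' l
          · have hc : l' ≠ l := by
              rintro rfl
              exact beats_irrefl _ hb
            simp [ha, hb, hc]
          · have hc : l' = l := by
              by_contra hne
              exact ha (beats_total hM hne hb)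
            subst hc
            simp [ha]
      rw [Finset.sum_congr rfl (fun l' _ => this l')]
      simp [hcard]
    rw [Finset.sum_add_distrib, Finset.sum_add_distrib, Finset.sum_ite_eq'] at e
    simpa [Finset.sum_boole] using e
  have h6 : ((Finset.univ.filter (fun l' : ZMod P.M => beats l l')).card : ℝ) =
      ((P.M : ℝ) - 1) / 2 := by
    have : ((Finset.univ.filter (fun l' : ZMod P.M => beats l l')).card : ℝ) +
      (Finset.univ.filter (fun l' : ZMod P.M => beats l' l)).card + 1 = P.M := by
      exact_mod_cast h5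
    rw [← h4] at this
    linarith
  rw [Finset.sum_congr rfl (fun l' _ => h1 l'), Finset.sum_add_distrib,
    Finset.sum_add_distrib, h2, h3, ← h4, h6, Finset.sum_ite_eq', if_pos (Finset.mem_univ l),
    hcard]
  unfold bet
  field_simp

/-! ### The recursion -/

/-- Tree with given root label and children. -/
def mk {D : ℕ} (u : Cl P) (l : ZMod P.M) (Y : Fin 3 → Om P D) : Tr P
  | [] => (u, l)
  | i :: w => ext D (Y i) w

theorem sub_mk {D : ℕ} (u : Cl P) (l : ZMod P.M) (Y : Fin 3 → Om P D) (i : Fin 3) :
    sub (mk u l Y) i = ext D (Y i) := rfl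

/-- Splitting a labelling at the root. -/
def omEquiv (D : ℕ) : Om P (D + 1) ≃ ZMod P.M × (Cl P × (Fin 3 → Om P D)) where
  toFun X := ((X none).2, ((X none).1, fun i z => X (some (i, z))))
  invFun t := fun z => match (z : Option (Fin 3 × Pos D)) with
    | none => (t.2.1, t.1)
    | some (i, z) => t.2.2 i z
  left_inv X := by
    funext z
    cases z with
    | none => rfl
    | some w => rfl
  right_inv t := rfl

theorem ext_eq_mk {D : ℕ} (X : Om P (D + 1)) :
    ext (D + 1) X = mk (omEquiv D X).2.1 (omEquiv D X).1 (omEquiv D X).2.2 := by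
  funext w
  cases w with
  | nil => rfl
  | cons i w => rfl

/-- Splitting for one step along the path. -/
def stepEquiv (c : Fin 3) (D : ℕ) : Cl P × (Fin 3 → Om P (D + 1)) ≃
    (Cl P × (Fin 2 → Om P (D + 1))) × (ZMod P.M × (Cl P × (Fin 3 → Om P D))) where
  toFun z := ((z.1, fun k => z.2 (c.succAbove k)), omEquiv D (z.2 c))
  invFun t := (t.1.1, c.insertNth (α := fun _ => Om P (D + 1)) ((omEquiv D).symm t.2) t.1.2)
  left_inv z := by
    refine Prod.ext rfl ?_
    funext i
    refine Fin.succAboveCases c ?_ ?_ i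
    · simp
    · intro k
      simp
  right_inv t := by
    refine Prod.ext (Prod.ext rfl ?_) ?_
    · funext k
      simp
    · simp

/-- The vertex is satisfied by its predecessor. -/
def satL (p : ℕ × Bool) (lp : ZMod P.M) (s : ℕ × Bool) (l : ZMod P.M) : Prop :=
  p.2 = true ∧ p.1 = s.1 ∧ ¬ beats l lp

/-- Probability of the event given the root value. -/
noncomputable def F (p : ℕ × Bool) (lp : ZMod P.M) (s : ℕ × Bool) (l : ZMod P.M)
    (w : List (Fin 3)) (D : ℕ) : ℝ :=
  Pr (fun z : Cl P × (Fin 3 → Om P D) => TB p lp s w (mk z.1 l z.2))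

/-- Contribution of the state `x` of the next vertex. -/
noncomputable def Q (p : ℕ × Bool) (lp : ZMod P.M) (s : ℕ × Bool) (l : ZMod P.M)
    (w : List (Fin 3)) (D : ℕ) (x : ℕ × Bool) : ℝ :=
  (∑ l' : ZMod P.M, Pr (fun z : Cl P × (Fin 2 → Om P (D + 1)) =>
      Loc p.1 s x.1 (satL p lp s l ∨ (x.2 = true ∧ x.1 = s.1 ∧ ¬ beats l l')) (z.1, l)
        (fun k => ext (D + 1) (z.2 k))) * F s l x l' w D) / Fintype.card (ZMod P.M)

theorem F_nonneg (p : ℕ × Bool) (lp : ZMod P.M) (s : ℕ × Bool) (l : ZMod P.M)
    (w : List (Fin 3)) (D : ℕ) : 0 ≤ F p lp s l w D := Pr_nonneg _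

theorem pr_union_OK {α : Type*} [Finite α] (A : ℕ × Bool → α → Prop) :
    Pr (fun z => ∃ x, OK P x ∧ A x z) ≤
      ∑ e ∈ Finset.range (P.K + 1), (Pr (A (e, false)) + if e < P.K then Pr (A (e, true)) else 0)
    := by
  have h1 : Pr (fun z => ∃ x, OK P x ∧ A x z) ≤ Pr (fun z => ∃ e ∈ Finset.range (P.K + 1),
      (A (e, false) z ∨ (e < P.K ∧ A (e, true) z))) := by
    apply Pr_mono
    rintro z ⟨⟨e, b⟩, ⟨h1, h2⟩, h3⟩
    refine ⟨e, Finset.mem_range.mpr (Nat.lt_succ_of_le h1), ?_⟩
    cases b with
    | false => exact Or.inl h3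
    | true => exact Or.inr ⟨h2 rfl, h3⟩
  refine h1.trans ((Pr_exists_le _ _).trans ?_)
  apply Finset.sum_le_sum
  intro e _
  rw [Pr_split _ (fun z => A (e, false) z)]
  have h2 : Pr (fun x => (A (e, false) x ∨ e < P.K ∧ A (e, true) x) ∧ A (e, false) x) ≤
      Pr (A (e, false)) := Pr_mono (fun x h => h.2)
  have h3 : Pr (fun x => (A (e, false) x ∨ e < P.K ∧ A (e, true) x) ∧ ¬ A (e, false) x) ≤
      if e < P.K then Pr (A (e, true)) else 0 := by
    split_ifs with h
    · apply Pr_mono
      rintro x ⟨h4, h5⟩
      rcases h4 with h4 | h4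
      · exact absurd h4 h5
      · exact h4.2
    · have : ∀ x, ((A (e, false) x ∨ e < P.K ∧ A (e, true) x) ∧ ¬ A (e, false) x) ↔ False := by
        intro x
        tauto
      rw [Pr_congr this]
      unfold Pr
      simp
  linarith

theorem F_step (p : ℕ × Bool) (lp : ZMod P.M) (s : ℕ × Bool) (l : ZMod P.M) (c : Fin 3)
    (w : List (Fin 3)) (D : ℕ) :
    F p lp s l (c :: w) (D + 1) ≤ ∑ e ∈ Finset.range (P.K + 1),
      (Q p lp s l w D (e, false) + if e < P.K then Q p lp s l w D (e, true) else 0) := by
  let A : ℕ × Bool → (Cl P × (Fin 3 → Om P (D + 1))) → Prop := fun x z =>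
      Loc p.1 s x.1 (satL p lp s l ∨
        (x.2 = true ∧ x.1 = s.1 ∧ ¬ beats l (omEquiv D (z.2 c)).1)) (z.1, l)
        (fun k => ext (D + 1) (z.2 (c.succAbove k))) ∧
      TB s l x w (mk (omEquiv D (z.2 c)).2.1 (omEquiv D (z.2 c)).1 (omEquiv D (z.2 c)).2.2)
  have key : ∀ x : ℕ × Bool, Pr (A x) = Q p lp s l w D x := by
    intro x
    have h1 := Pr_avg (fun (l' : ZMod P.M) (z : Cl P × (Fin 2 → Om P (D + 1))) =>
      Loc p.1 s x.1 (satL p lp s l ∨ (x.2 = true ∧ x.1 = s.1 ∧ ¬ beats l l')) (z.1, l)
        (fun k => ext (D + 1) (z.2 k)))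
      (fun (l' : ZMod P.M) (z : Cl P × (Fin 3 → Om P D)) => TB s l x w (mk z.1 l' z.2))
    have h2 := Pr_equiv (stepEquiv c D) (fun z : (Cl P × (Fin 2 → Om P (D + 1))) ×
        (ZMod P.M × (Cl P × (Fin 3 → Om P D))) =>
      (Loc p.1 s x.1 (satL p lp s l ∨ (x.2 = true ∧ x.1 = s.1 ∧ ¬ beats l z.2.1)) (z.1.1, l)
        (fun k => ext (D + 1) (z.1.2 k))) ∧ TB s l x w (mk z.2.2.1 z.2.1 z.2.2.2))
    unfold Q F
    rw [← h1, ← h2]
    rfl
  have h := pr_union_OK (P := P) A
  have h1 : F p lp s l (c :: w) (D + 1) ≤ Pr (fun z => ∃ x, OK P x ∧ A x z) := by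
    unfold F
    apply Pr_mono
    rintro z ⟨x, hx, h1, h2⟩
    refine ⟨x, hx, ?_, ?_⟩
    · exact h1
    · rw [← ext_eq_mk]
      exact h2
  refine h1.trans (h.trans (le_of_eq (Finset.sum_congr rfl (fun e _ => ?_))))
  rw [key (e, false), key (e, true)]

end Pool.Agent.Helper85.Girth4
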