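import Pool.Agent.Helper85.Girth4.Prob

/-!
# One vertex of the path: evaluation of the local event
-/

namespace Pool.Agent.Helper85.Girth4

open Pool.Agent.Helper41.Girth4 Finset

variable {P : Par}

/-- labellings of the finite tree -/
abbrev Om (P : Par) (D : ℕ) : Type := Pos D → Lab P

/-- clocks -/
abbrev Cl (P : Par) : Type := Fin P.K → Fin P.N

theorem cnt_le {n : ℕ} (A : Fin n → Prop) : cnt A ≤ n := by
  unfold cnt
  calc Nat.card {i // A i} ≤ Nat.card (Fin n) :=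
        Nat.card_le_card_of_injective Subtype.val Subtype.val_injective
    _ = n := Nat.card_fin n

theorem vertex (hC : StmtVertex P) (hD : StmtLaw P) {m : ℕ} (n : ℕ → ℕ) {T D : ℕ}
    (hT : T ≤ P.K) (hTD : 3 * T ≤ D) (E : Om P D → Prop) (hE : ∀ x, E x → Al T (ext D x))
    {j : ℕ} (hj : j ≤ m) :
    (Pr (fun z : Cl P × (Fin m → Om P D) =>
        surv n T z.1 (fun k => ext D (z.2 k)) ∧
        cnt (fun k => Al T (ext D (z.2 k))) = j ∧ ∀ k, Al T (ext D (z.2 k)) → E (z.2 k))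
      = (m.choose j : ℝ) * yG m (fun t i => pr P t (i + n t)) (ld P) T j * Pr E ^ j) ∧
    (T < P.K → ∀ θ ≤ P.N,
      Pr (fun z : Cl P × (Fin m → Om P D) =>
        surv n T z.1 (fun k => ext D (z.2 k)) ∧
        cnt (fun k => Al T (ext D (z.2 k))) = j ∧ (∀ k, Al T (ext D (z.2 k)) → E (z.2 k)) ∧
          clk P z.1 T < θ)
      = (m.choose j : ℝ) * yG m (fun t i => pr P t (i + n t)) (ld P) T j * Pr E ^ j *
        ((θ : ℝ) / P.N)) :=
  hC (fun t x => Al t (ext D x)) (fun t x => St t (ext D x)) (fun _ => trivial)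
    (fun s x h => h.1.1) (fun s x h => ⟨h.1, fun h' => h.2.1 h'.1⟩) m n (ld P) T hT
    (fun s hs => hD.2.2.2.2 s (by omega) D (by omega)) E hE j hj

section
variable (hC : StmtVertex P) (hD : StmtLaw P) {m : ℕ} (n : ℕ → ℕ) {T D : ℕ}
    (E : Om P D → Prop) (hE : ∀ x, E x → Al T (ext D x))
include hC hD hE

theorem vertex_all (hT : T ≤ P.K) (hTD : 3 * T ≤ D) :
    Pr (fun z : Cl P × (Fin m → Om P D) =>
        surv n T z.1 (fun k => ext D (z.2 k)) ∧ ∀ k, Al T (ext D (z.2 k)) → E (z.2 k))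
      = ev m (fun _ => 1) (Pr E) (yG m (fun t i => pr P t (i + n t)) (ld P) T) := by
  rw [Pr_fiber _ (fun z => cnt (fun k => Al T (ext D (z.2 k)))) m (fun z => cnt_le _)]
  unfold ev
  apply Finset.sum_congr rfl
  intro j hj
  have hj' : j ≤ m := Nat.lt_succ_iff.mp (Finset.mem_range.mp hj)
  rw [mul_one, ← (vertex hC hD n hT hTD E hE hj').1]
  apply Pr_congr
  intro z
  tauto

theorem vertex_ring (hT : T < P.K) (hTD : 3 * T ≤ D) :
    Pr (fun z : Cl P × (Fin m → Om P D) =>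
        surv n T z.1 (fun k => ext D (z.2 k)) ∧
        clk P z.1 T < P.thr T (cnt (fun k => Al T (ext D (z.2 k))) + n T) ∧
        ∀ k, Al T (ext D (z.2 k)) → E (z.2 k))
      = ev m (fun j => pr P T (j + n T)) (Pr E)
        (yG m (fun t i => pr P t (i + n t)) (ld P) T) := by
  rw [Pr_fiber _ (fun z => cnt (fun k => Al T (ext D (z.2 k)))) m (fun z => cnt_le _)]
  unfold ev
  apply Finset.sum_congr rfl
  intro j hj
  have hj' : j ≤ m := Nat.lt_succ_iff.mp (Finset.mem_range.mp hj)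
  have h := (vertex hC hD n hT.le hTD E hE hj').2 hT (P.thr T (j + n T)) (P.hthr _ _)
  have e : (m.choose j : ℝ) * yG m (fun t i => pr P t (i + n t)) (ld P) T j *
      pr P T (j + n T) * Pr E ^ j = (m.choose j : ℝ) *
      yG m (fun t i => pr P t (i + n t)) (ld P) T j * Pr E ^ j *
        ((P.thr T (j + n T) : ℝ) / P.N) := by
    unfold pr
    ring
  rw [e, ← h]
  apply Pr_congr
  intro z
  constructor
  · rintro ⟨⟨h1, h2, h3⟩, h4⟩
    rw [h4] at h2
    exact ⟨h1, h4, h3, h2⟩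
  · rintro ⟨h1, h4, h3, h2⟩
    refine ⟨⟨h1, ?_, h3⟩, h4⟩
    rw [h4]
    exact h2

theorem vertex_silent (hT : T < P.K) (hTD : 3 * T ≤ D) :
    Pr (fun z : Cl P × (Fin m → Om P D) =>
        surv n T z.1 (fun k => ext D (z.2 k)) ∧
        ¬ (clk P z.1 T < P.thr T (cnt (fun k => Al T (ext D (z.2 k))) + n T)) ∧
        ∀ k, Al T (ext D (z.2 k)) → E (z.2 k))
      = ev m (fun j => 1 - pr P T (j + n T)) (Pr E)
        (yG m (fun t i => pr P t (i + n t)) (ld P) T) := by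
  have h1 := vertex_all (m := m) hC hD n E hE hT.le hTD
  have h2 := vertex_ring (m := m) hC hD n E hE hT hTD
  rw [Pr_split _ (fun z => clk P z.1 T < P.thr T (cnt (fun k => Al T (ext D (z.2 k))) + n T))]
    at h1
  have e1 : Pr (fun z : Cl P × (Fin m → Om P D) =>
      (surv n T z.1 (fun k => ext D (z.2 k)) ∧ ∀ k, Al T (ext D (z.2 k)) → E (z.2 k)) ∧
        clk P z.1 T < P.thr T (cnt (fun k => Al T (ext D (z.2 k))) + n T)) =
      Pr (fun z : Cl P × (Fin m → Om P D) =>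
        surv n T z.1 (fun k => ext D (z.2 k)) ∧
        clk P z.1 T < P.thr T (cnt (fun k => Al T (ext D (z.2 k))) + n T) ∧
        ∀ k, Al T (ext D (z.2 k)) → E (z.2 k)) := by
    apply Pr_congr
    intro z
    tauto
  have e2 : Pr (fun z : Cl P × (Fin m → Om P D) =>
      (surv n T z.1 (fun k => ext D (z.2 k)) ∧ ∀ k, Al T (ext D (z.2 k)) → E (z.2 k)) ∧
        ¬ (clk P z.1 T < P.thr T (cnt (fun k => Al T (ext D (z.2 k))) + n T))) =
      Pr (fun z : Cl P × (Fin m → Om P D) =>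
        surv n T z.1 (fun k => ext D (z.2 k)) ∧
        ¬ (clk P z.1 T < P.thr T (cnt (fun k => Al T (ext D (z.2 k))) + n T)) ∧
        ∀ k, Al T (ext D (z.2 k)) → E (z.2 k)) := by
    apply Pr_congr
    intro z
    tauto
  rw [e1, e2, h2] at h1
  have e3 : ev m (fun j => 1 - pr P T (j + n T)) (Pr E)
      (yG m (fun t i => pr P t (i + n t)) (ld P) T) =
      ev m (fun _ => 1) (Pr E) (yG m (fun t i => pr P t (i + n t)) (ld P) T) -
      ev m (fun j => pr P T (j + n T)) (Pr E)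
        (yG m (fun t i => pr P t (i + n t)) (ld P) T) := by
    unfold ev
    rw [← Finset.sum_sub_distrib]
    apply Finset.sum_congr rfl
    intro j _
    ring
  rw [e3]
  linarith

end

section loc
variable (hC : StmtVertex P) (hD : StmtLaw P) {T D : ℕ}
include hD

theorem pr_al (hT : T ≤ P.K) (hTD : 3 * T ≤ D) :
    Pr (fun X : Om P D => Al T (ext D X)) = la P T := hD.1 T hT D hTD

theorem pr_al_not_st (hT : T < P.K) (hTD : 3 * T + 2 ≤ D) :
    Pr (fun X : Om P D => Al T (ext D X) ∧ ¬ St T (ext D X)) = la P T - ls P T := by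
  have h1 := hD.1 T hT.le D (by omega)
  have h2 := hD.2.2.2.1 T hT D hTD
  rw [Pr_split _ (fun X => St T (ext D X))] at h1
  have e : Pr (fun X : Pos D → Lab P => Al T (ext D X) ∧ St T (ext D X)) =
      Pr (fun X : Pos D → Lab P => St T (ext D X)) := by
    apply Pr_congr
    intro X
    exact ⟨fun h => h.2, fun h => ⟨h.1.1, h⟩⟩
  rw [e, h2] at h1
  linarith

theorem pr_al_not_rg (hT : T < P.K) (hTD : 3 * T + 2 ≤ D) (l : ZMod P.M) :
    Pr (fun X : Om P D => Al T (ext D X) ∧ ¬ (Rg T (ext D X) ∧ ¬ beats l (ext D X []).2)) =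
      la P T - bet' P * lr P T := by
  have h1 := hD.1 T hT.le D (by omega)
  have h2 := hD.2.2.1 T hT D (by omega) l
  rw [Pr_split _ (fun X => Rg T (ext D X) ∧ ¬ beats l (ext D X []).2)] at h1
  have e : Pr (fun X : Pos D → Lab P => Al T (ext D X) ∧
      (Rg T (ext D X) ∧ ¬ beats l (ext D X []).2)) =
      Pr (fun X : Pos D → Lab P => Rg T (ext D X) ∧ ¬ beats l (ext D X []).2) := by
    apply Pr_congr
    intro X
    exact ⟨fun h => h.2, fun h => ⟨h.1.1, h⟩⟩
  rw [e, h2] at h1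
  linarith

include hC

theorem loc_false (hT : T ≤ P.K) (hTD : 3 * P.K + 2 ≤ D) (a c : ℕ) (sat : Prop)
    (l : ZMod P.M) :
    Pr (fun z : Cl P × (Fin 2 → Om P D) =>
      Loc a (T, false) c sat (z.1, l) (fun k => ext D (z.2 k))) = wN P a c T := by
  unfold wN
  rcases hT.lt_or_eq with hT' | hT'
  · rw [if_pos hT']
    have h1 := vertex_silent (m := 2) hC hD (nn a c) (fun X : Om P D => Al T (ext D X))
      (fun x h => h) hT' (by omega)
    rw [pr_al hD hT (by omega)] at h1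
    have h2 := vertex_silent (m := 2) hC hD (nn a c)
      (fun X : Om P D => Al T (ext D X) ∧ ¬ St T (ext D X)) (fun x h => h.1) hT' (by omega)
    rw [pr_al_not_st hD hT' (by omega)] at h2
    rw [Pr_split _ (fun z => ∃ k, St T (ext D (z.2 k)))] at h1
    unfold yv
    have e1 : Pr (fun z : Cl P × (Fin 2 → Om P D) =>
        (surv (nn a c) T z.1 (fun k => ext D (z.2 k)) ∧
          ¬ (clk P z.1 T < P.thr T (cnt (fun k => Al T (ext D (z.2 k))) + nn a c T)) ∧
          ∀ k, Al T (ext D (z.2 k)) → Al T (ext D (z.2 k))) ∧ ∃ k, St T (ext D (z.2 k))) =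
        Pr (fun z : Cl P × (Fin 2 → Om P D) =>
          Loc a (T, false) c sat (z.1, l) (fun k => ext D (z.2 k))) := by
      apply Pr_congr
      intro z
      constructor
      · rintro ⟨⟨h1, h2, -⟩, h3⟩
        exact ⟨h1, Or.inr ⟨rfl, fun _ => ⟨h2, h3⟩⟩⟩
      · rintro ⟨h1, h2⟩
        rcases h2 with h2 | h2
        · exact absurd h2.1 (by simp)
        · obtain ⟨-, h3⟩ := h2
          obtain ⟨h4, h5⟩ := h3 hT'
          exact ⟨⟨h1, h4, fun _ h => h⟩, h5⟩
    have e2 : Pr (fun z : Cl P × (Fin 2 → Om P D) =>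
        (surv (nn a c) T z.1 (fun k => ext D (z.2 k)) ∧
          ¬ (clk P z.1 T < P.thr T (cnt (fun k => Al T (ext D (z.2 k))) + nn a c T)) ∧
          ∀ k, Al T (ext D (z.2 k)) → Al T (ext D (z.2 k))) ∧
            ¬ ∃ k, St T (ext D (z.2 k))) =
        Pr (fun z : Cl P × (Fin 2 → Om P D) =>
        surv (nn a c) T z.1 (fun k => ext D (z.2 k)) ∧
        ¬ (clk P z.1 T < P.thr T (cnt (fun k => Al T (ext D (z.2 k))) + nn a c T)) ∧
        ∀ k, Al T (ext D (z.2 k)) → (Al T (ext D (z.2 k)) ∧ ¬ St T (ext D (z.2 k)))) := by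
      apply Pr_congr
      intro z
      constructor
      · rintro ⟨⟨h1, h2, -⟩, h3⟩
        exact ⟨h1, h2, fun k hk => ⟨hk, fun h => h3 ⟨k, h⟩⟩⟩
      · rintro ⟨h1, h2, h3⟩
        exact ⟨⟨h1, h2, fun _ h => h⟩, fun ⟨k, hk⟩ => (h3 k hk.1.1).2 hk⟩
    rw [e1, e2, h2] at h1
    linarith
  · rw [if_neg (by omega)]
    have h1 := vertex_all (m := 2) hC hD (nn a c) (fun X : Om P D => Al T (ext D X))
      (fun x h => h) hT (by omega)
    rw [pr_al hD hT (by omega)] at h1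
    unfold yv
    rw [← h1]
    apply Pr_congr
    intro z
    constructor
    · rintro ⟨h1, -⟩
      exact ⟨h1, fun _ h => h⟩
    · rintro ⟨h1, -⟩
      exact ⟨h1, Or.inr ⟨rfl, fun h => absurd h (by simp only; omega)⟩⟩

theorem loc_true_sat (hT : T < P.K) (hTD : 3 * P.K + 2 ≤ D) (a c : ℕ) (sat : Prop)
    (hs : sat) (l : ZMod P.M) :
    Pr (fun z : Cl P × (Fin 2 → Om P D) =>
      Loc a (T, true) c sat (z.1, l) (fun k => ext D (z.2 k))) = wA P a c T := by
  have h1 := vertex_ring (m := 2) hC hD (nn a c) (fun X : Om P D => Al T (ext D X))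
    (fun x h => h) hT (by omega)
  rw [pr_al hD hT.le (by omega)] at h1
  unfold wA yv
  rw [← h1]
  apply Pr_congr
  intro z
  constructor
  · rintro ⟨h1, h2⟩
    rcases h2 with h2 | h2
    · exact ⟨h1, h2.2.1, fun _ h => h⟩
    · exact absurd h2.1 (by simp)
  · rintro ⟨h1, h2, -⟩
    exact ⟨h1, Or.inl ⟨rfl, h2, Or.inl hs⟩⟩

theorem loc_true_unsat (hT : T < P.K) (hTD : 3 * P.K + 2 ≤ D) (a c : ℕ) (sat : Prop)
    (hs : ¬ sat) (l : ZMod P.M) :
    Pr (fun z : Cl P × (Fin 2 → Om P D) =>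
      Loc a (T, true) c sat (z.1, l) (fun k => ext D (z.2 k))) = wS P a c T := by
  have h1 := vertex_ring (m := 2) hC hD (nn a c) (fun X : Om P D => Al T (ext D X))
    (fun x h => h) hT (by omega)
  rw [pr_al hD hT.le (by omega)] at h1
  have h2 := vertex_ring (m := 2) hC hD (nn a c)
    (fun X : Om P D => Al T (ext D X) ∧ ¬ (Rg T (ext D X) ∧ ¬ beats l (ext D X []).2))
    (fun x h => h.1) hT (by omega)
  rw [pr_al_not_rg hD hT (by omega)] at h2
  unfold wS wA yv
  rw [Pr_split _ (fun z => ∃ k, Rg T (ext D (z.2 k)) ∧ ¬ beats l (ext D (z.2 k) []).2)] at h1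
  have e1 : Pr (fun z : Cl P × (Fin 2 → Om P D) =>
      (surv (nn a c) T z.1 (fun k => ext D (z.2 k)) ∧
        clk P z.1 T < P.thr T (cnt (fun k => Al T (ext D (z.2 k))) + nn a c T) ∧
        ∀ k, Al T (ext D (z.2 k)) → Al T (ext D (z.2 k))) ∧
          ∃ k, Rg T (ext D (z.2 k)) ∧ ¬ beats l (ext D (z.2 k) []).2) =
      Pr (fun z : Cl P × (Fin 2 → Om P D) =>
        Loc a (T, true) c sat (z.1, l) (fun k => ext D (z.2 k))) := by
    apply Pr_congr
    intro z
    constructor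
    · rintro ⟨⟨h1, h2, -⟩, h3⟩
      exact ⟨h1, Or.inl ⟨rfl, h2, Or.inr h3⟩⟩
    · rintro ⟨h1, h2⟩
      rcases h2 with h2 | h2
      · obtain ⟨-, h3, h4⟩ := h2
        rcases h4 with h4 | h4
        · exact absurd h4 hs
        · exact ⟨⟨h1, h3, fun _ h => h⟩, h4⟩
      · exact absurd h2.1 (by simp)
  have e2 : Pr (fun z : Cl P × (Fin 2 → Om P D) =>
      (surv (nn a c) T z.1 (fun k => ext D (z.2 k)) ∧
        clk P z.1 T < P.thr T (cnt (fun k => Al T (ext D (z.2 k))) + nn a c T) ∧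
        ∀ k, Al T (ext D (z.2 k)) → Al T (ext D (z.2 k))) ∧
          ¬ ∃ k, Rg T (ext D (z.2 k)) ∧ ¬ beats l (ext D (z.2 k) []).2) =
      Pr (fun z : Cl P × (Fin 2 → Om P D) =>
        surv (nn a c) T z.1 (fun k => ext D (z.2 k)) ∧
        clk P z.1 T < P.thr T (cnt (fun k => Al T (ext D (z.2 k))) + nn a c T) ∧
        ∀ k, Al T (ext D (z.2 k)) → (Al T (ext D (z.2 k)) ∧
          ¬ (Rg T (ext D (z.2 k)) ∧ ¬ beats l (ext D (z.2 k) []).2))) := by
    apply Pr_congr
    intro z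
    constructor
    · rintro ⟨⟨h1, h2, -⟩, h3⟩
      exact ⟨h1, h2, fun k hk => ⟨hk, fun h => h3 ⟨k, h⟩⟩⟩
    · rintro ⟨h1, h2, h3⟩
      exact ⟨⟨h1, h2, fun _ h => h⟩, fun ⟨k, hk⟩ => (h3 k hk.1.1).2 hk⟩
  rw [e1, e2, h2] at h1
  linarith

end loc

end Pool.Agent.Helper85.Girth4
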